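import Pool.Agent.Helper62.LH.StA

/-!
# Project LH, module DEN: density of continuous functions
-/

set_option autoImplicit false

open Set Filter Topology MeasureTheory
open scoped ContDiff ENNReal

noncomputable section

namespace Pool.Agent.Helper17.LH

open Helper62.LH

lemma L2l_iff {n : ℕ} (u : E n → ℝ) : L2l u ↔ AEStronglyMeasurable u volume ∧
    ∀ K : Set (E n), IsCompact K → MemLp u 2 (volume.restrict K) := by
  constructor
  · rintro ⟨h1, h2⟩
    exact ⟨h1, fun K hK => (memLp_two_iff_integrable_sq h1.restrict).mpr (h2 K hK)⟩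
  · rintro ⟨h1, h2⟩
    exact ⟨h1, fun K hK => (memLp_two_iff_integrable_sq h1.restrict).mp (h2 K hK)⟩

lemma L2l_sub {n : ℕ} {u v : E n → ℝ} (hu : L2l u) (hv : L2l v) : L2l (fun x => u x - v x) := by
  rw [L2l_iff] at *
  exact ⟨hu.1.sub hv.1, fun K hK => (hu.2 K hK).sub (hv.2 K hK)⟩

lemma L2l_add {n : ℕ} {u v : E n → ℝ} (hu : L2l u) (hv : L2l v) : L2l (fun x => u x + v x) := by
  rw [L2l_iff] at *
  exact ⟨hu.1.add hv.1, fun K hK => (hu.2 K hK).add (hv.2 K hK)⟩

lemma L2l_of_continuous {n : ℕ} {v : E n → ℝ} (hv : Continuous v) : L2l v :=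
  ⟨hv.aestronglyMeasurable, fun _ hK => (hv.pow 2).continuousOn.integrableOn_compact hK⟩

theorem hDen : StDen := by
  intro n u hu K hK η hη
  have hKm : MeasurableSet K := hK.measurableSet
  have hu' := (L2l_iff u).mp hu
  have hf : MemLp (K.indicator u) 2 volume := (memLp_indicator_iff_restrict hKm).mpr (hu'.2 K hK)
  obtain ⟨v, hvc, hve, hvcont, hvm⟩ := hf.exists_hasCompactSupport_eLpNorm_sub_le (by norm_num)
    (ε := ENNReal.ofReal (√η)) (by
      rw [ne_eq, ENNReal.ofReal_eq_zero, not_le]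
      exact Real.sqrt_pos.mpr hη)
  refine ⟨v, hvcont, hvc, L2l_sub hu (L2l_of_continuous hvcont), ?_⟩
  have hint : Integrable (fun x => (K.indicator u x - v x) ^ 2) volume := by
    have := (hf.sub hvm)
    exact (memLp_two_iff_integrable_sq this.1).mp this
  have h1 : ∫ x in K, (u x - v x) ^ 2 = ∫ x in K, (K.indicator u x - v x) ^ 2 := by
    refine setIntegral_congr_fun hKm fun x hx => ?_
    rw [indicator_of_mem hx]
  rw [h1]
  refine (setIntegral_le_integral hint (Eventually.of_forall fun x => sq_nonneg _)).trans ?_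
  have h2 : ENNReal.ofReal (∫ x, (K.indicator u x - v x) ^ 2) ≤ ENNReal.ofReal η := by
    rw [ofReal_integral_eq_lintegral_ofReal hint (Eventually.of_forall fun x => sq_nonneg _)]
    have h3 : ∫⁻ x, ENNReal.ofReal ((K.indicator u x - v x) ^ 2) =
        eLpNorm (K.indicator u - v) 2 volume ^ 2 := by
      have h4 := eLpNorm_nnreal_pow_eq_lintegral (μ := (volume : Measure (E n)))
        (f := K.indicator u - v) (p := 2) (by norm_num)
      have h5 : eLpNorm (K.indicator u - v) 2 volume ^ 2 =
          eLpNorm (K.indicator u - v) ((2 : NNReal) : ℝ≥0∞) volume ^ (((2 : NNReal) : ℝ)) := by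
        norm_num
      rw [h5, h4]
      refine lintegral_congr fun x => ?_
      rw [Real.enorm_eq_ofReal_abs, ENNReal.ofReal_rpow_of_nonneg (abs_nonneg _) (by norm_num)]
      congr 1
      norm_num
    rw [h3]
    calc eLpNorm (K.indicator u - v) 2 volume ^ 2 ≤ ENNReal.ofReal (√η) ^ 2 :=
          pow_le_pow_left' hve 2
      _ = ENNReal.ofReal η := by
          rw [← ENNReal.ofReal_pow (Real.sqrt_nonneg _), Real.sq_sqrt hη.le]
  exact (ENNReal.ofReal_le_ofReal_iff hη.le).mp h2

end Pool.Agent.Helper17.LH
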