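import Pool.Agent.Helper17.LH.M_MOC

/-!
# Project LH, module FRC: commutator lemma of Friedrichs
-/

set_option autoImplicit false

open Set Filter Topology MeasureTheory
open scoped ContDiff ENNReal

noncomputable section

namespace Pool.Agent.Helper17.LH

open Helper62.LH

/-- the kernel of the commutator -/
def kf {n : ℕ} (ρ a : E n → ℝ) (v : E n) (ε : ℝ) (x y : E n) : ℝ :=
  fderiv ℝ a x v * ρ y + (a x - a (x - ε • y)) / ε * fderiv ℝ ρ y v

/-- the limit of the kernel -/
def k0 {n : ℕ} (ρ a : E n → ℝ) (v : E n) (x y : E n) : ℝ :=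
  fderiv ℝ a x v * ρ y + fderiv ℝ a x y * fderiv ℝ ρ y v

section

variable {n : ℕ} {ρ : E n → ℝ} (hρ : Mol ρ) {a : E n → ℝ} (ha : ContDiff ℝ ∞ a) (v : E n)

include hρ in
lemma fderiv_rho_cont : Continuous (fun y => fderiv ℝ ρ y v) :=
  (hρ.smooth.continuous_fderiv (by simp)).clm_apply continuous_const

include hρ in
lemma fderiv_rho_supp : HasCompactSupport (fun y => fderiv ℝ ρ y v) :=
  ((mol_compact hρ).fderiv ℝ).comp_left (g := fun L : E n →L[ℝ] ℝ => L v) (by simp)

include hρ in
lemma fderiv_rho_zero {y : E n} (hy : 1 < ‖y‖) : fderiv ℝ ρ y v = 0 := by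
  have h : ρ =ᶠ[𝓝 y] fun _ => 0 := by
    filter_upwards [(isOpen_lt continuous_const continuous_norm).mem_nhds hy] with z hz
    exact hρ.supp z hz
  rw [h.fderiv_eq]
  simp

include hρ ha in
lemma kf_cont {ε : ℝ} : Continuous (fun q : E n × E n => kf ρ a v ε q.1 q.2) := by
  unfold kf
  have h1 : Continuous (fun q : E n × E n => fderiv ℝ a q.1 v) :=
    ((ha.continuous_fderiv (by simp)).comp continuous_fst).clm_apply continuous_const
  have h2 : Continuous (fun q : E n × E n => fderiv ℝ ρ q.2 v) :=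
    (fderiv_rho_cont hρ v).comp continuous_snd
  have h3 : Continuous (fun q : E n × E n => a (q.1 - ε • q.2)) :=
    ha.continuous.comp (continuous_fst.sub (continuous_snd.const_smul ε))
  exact (h1.mul (hρ.smooth.continuous.comp continuous_snd)).add
    ((((ha.continuous.comp continuous_fst).sub h3).div_const ε).mul h2)

include hρ in
lemma kf_supp {ε : ℝ} (x y : E n) (hy : 1 < ‖y‖) : kf ρ a v ε x y = 0 := by
  unfold kf
  rw [hρ.supp y hy, fderiv_rho_zero hρ v hy]
  ring

include hρ in
lemma k0_supp (x y : E n) (hy : 1 < ‖y‖) : k0 ρ a v x y = 0 := by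
  unfold k0
  rw [hρ.supp y hy, fderiv_rho_zero hρ v hy]
  ring

include hρ in
lemma k0_cont (x : E n) : Continuous (k0 ρ a v x) := by
  unfold k0
  exact (continuous_const.mul hρ.smooth.continuous).add
    ((fderiv ℝ a x).continuous.mul (fderiv_rho_cont hρ v))

include hρ in
lemma k0_integral (x : E n) : ∫ y, k0 ρ a v x y = 0 := by
  have hc := mol_compact hρ
  have hρi : Integrable ρ := hρ.smooth.continuous.integrable_of_hasCompactSupport hc
  have i1 : Integrable (fun y => fderiv ℝ a x y * fderiv ℝ ρ y v) :=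
    ((fderiv ℝ a x).continuous.mul (fderiv_rho_cont hρ v)).integrable_of_hasCompactSupport
      (fderiv_rho_supp hρ v).mul_left
  have i2 : Integrable (fun y => fderiv ℝ a x y * ρ y) :=
    ((fderiv ℝ a x).continuous.mul hρ.smooth.continuous).integrable_of_hasCompactSupport
      hc.mul_left
  have h1 := integral_mul_fderiv_eq_neg_fderiv_mul_of_integrable (μ := (volume : Measure (E n)))
    (f := fun y => fderiv ℝ a x y) (g := ρ) (v := v)
    (by
      simp only [ContinuousLinearMap.fderiv]
      exact hρi.const_mul _) i1 i2 (fun y _ => (fderiv ℝ a x).differentiableAt)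
    (fun y _ => hρ.smooth.differentiable (by simp) y)
  unfold k0
  rw [integral_add (hρi.const_mul _) i1, integral_const_mul, hρ.int, h1]
  simp only [ContinuousLinearMap.fderiv]
  rw [integral_const_mul, hρ.int]
  ring

/-- difference quotients -/
lemma quot_near {n : ℕ} {a : E n → ℝ} (ha : ContDiff ℝ ∞ a) {K : Set (E n)} (hK : IsCompact K)
    {κ : ℝ} (hκ : 0 < κ) : ∃ δ > 0, δ ≤ 1 ∧ ∀ ε, 0 < ε → ε ≤ δ → ∀ x ∈ K, ∀ y : E n, ‖y‖ ≤ 1 →
      |(a x - a (x - ε • y)) / ε - fderiv ℝ a x y| ≤ κ := by
  obtain ⟨δ, hδ, hδ1, h⟩ := unif_near (ha.continuous_fderiv (by simp)) hK hκ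
  refine ⟨δ, hδ, hδ1, fun ε hε hεδ x hx y hy => ?_⟩
  have hmem : x - ε • y ∈ Metric.closedBall x δ := by
    rw [Metric.mem_closedBall, dist_eq_norm, sub_sub_cancel_left, norm_neg, norm_smul,
      Real.norm_of_nonneg hε.le]
    nlinarith [norm_nonneg y]
  have h1 := (convex_closedBall x δ).norm_image_sub_le_of_norm_fderiv_le' (f := a) (C := κ)
    (φ := fderiv ℝ a x) (x := x) (y := x - ε • y)
    (fun z _ => ha.differentiable (by simp) z)
    (fun z hz => h x hx z (by
      rw [Metric.mem_closedBall, dist_eq_norm] at hz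
      exact hz)) (Metric.mem_closedBall_self hδ.le) hmem
  rw [sub_sub_cancel_left, map_neg, map_smul, norm_neg, norm_smul, Real.norm_of_nonneg hε.le,
    Real.norm_eq_abs, smul_eq_mul] at h1
  have h2 : (a x - a (x - ε • y)) / ε - fderiv ℝ a x y =
      -(a (x - ε • y) - a x - -(ε * fderiv ℝ a x y)) / ε := by
    field_simp
    ring
  rw [h2, abs_div, abs_neg, abs_of_pos hε, div_le_iff₀ hε]
  refine h1.trans ?_
  nlinarith [norm_nonneg y, mul_pos hκ hε]

include hρ ha in
/-- the kernel applied to a continuous function tends to zero locally uniformly -/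
lemma kf_near {K : Set (E n)} (hK : IsCompact K) {M R1 W : ℝ} (hM : 0 ≤ M) (hR1 : 0 ≤ R1)
    (hW : 0 ≤ W) (hk0 : ∀ x ∈ K, ∀ y, |k0 ρ a v x y| ≤ M) (hr1 : ∀ y, |fderiv ℝ ρ y v| ≤ R1)
    {w : E n → ℝ} (hw : Continuous w) (hwW : ∀ y, |w y| ≤ W) {κ : ℝ} (hκ : 0 < κ) :
    ∃ δ > 0, δ ≤ 1 ∧ ∀ ε, 0 < ε → ε ≤ δ → ∀ x ∈ K,
      |∫ y, kf ρ a v ε x y * w (x - ε • y)| ≤ κ := by
  set b : ℝ := volume.real (Metric.closedBall (0 : E n) 1) with hb
  have hb0 : 0 ≤ b := measureReal_nonneg
  set κ1 : ℝ := κ / ((b + 1) * (R1 * W + M + 1)) with hκ1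
  have hD : 0 < (b + 1) * (R1 * W + M + 1) := by positivity
  have hκ10 : 0 < κ1 := by positivity
  obtain ⟨δ1, hδ1, hδ11, hq⟩ := quot_near ha hK hκ10
  obtain ⟨δ2, hδ2, hδ21, hu⟩ := unif_near hw hK hκ10
  refine ⟨min δ1 δ2, lt_min hδ1 hδ2, (min_le_left _ _).trans hδ11, fun ε hε hεδ x hx => ?_⟩
  have hε1 := hεδ.trans (min_le_left _ _)
  have hε2 := hεδ.trans (min_le_right _ _)
  have hkc : Continuous (fun y => kf ρ a v ε x y) :=
    (kf_cont hρ ha v (ε := ε)).comp (continuous_const.prodMk continuous_id)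
  have hwc : Continuous (fun y : E n => w (x - ε • y)) :=
    hw.comp (continuous_const.sub (continuous_const_smul ε))
  have i1 : Integrable (fun y => kf ρ a v ε x y * w (x - ε • y)) := by
    refine (hkc.mul hwc).integrable_of_hasCompactSupport ?_
    refine HasCompactSupport.intro (isCompact_closedBall (0 : E n) 1) fun y hy => ?_
    show kf ρ a v ε x y * w (x - ε • y) = 0
    rw [kf_supp hρ v x y (by simpa using hy), zero_mul]
  have i2 : Integrable (fun y => k0 ρ a v x y * w x) := by
    refine Integrable.mul_const ?_ _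
    refine (k0_cont hρ v x).integrable_of_hasCompactSupport ?_
    exact HasCompactSupport.intro (isCompact_closedBall (0 : E n) 1) fun y hy =>
      k0_supp hρ v x y (by simpa using hy)
  have e1 : ∫ y, kf ρ a v ε x y * w (x - ε • y) =
      ∫ y, (kf ρ a v ε x y * w (x - ε • y) - k0 ρ a v x y * w x) := by
    rw [integral_sub i1 i2, integral_mul_const, k0_integral hρ v x, zero_mul, sub_zero]
  set Q : ℝ := κ1 * R1 * W + M * κ1 with hQ
  have hQ0 : 0 ≤ Q := by positivity
  rw [e1, ← Real.norm_eq_abs]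
  have hBm : MeasurableSet (Metric.closedBall (0 : E n) 1) := Metric.isClosed_closedBall.measurableSet
  have hBf : volume (Metric.closedBall (0 : E n) 1) ≠ ⊤ :=
    (isCompact_closedBall (0 : E n) 1).measure_lt_top.ne
  calc ‖∫ y, (kf ρ a v ε x y * w (x - ε • y) - k0 ρ a v x y * w x)‖
      ≤ ∫ y, (Metric.closedBall (0 : E n) 1).indicator (fun _ => Q) y := by
        refine norm_integral_le_of_norm_le ?_ (Eventually.of_forall fun y => ?_)
        · exact (integrable_indicator_iff hBm).mpr (integrableOn_const hBf)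
        · by_cases hy : 1 < ‖y‖
          · rw [kf_supp hρ v x y hy, k0_supp hρ v x y hy, zero_mul, zero_mul, sub_zero, norm_zero]
            exact indicator_nonneg (fun _ _ => hQ0) y
          · push Not at hy
            rw [indicator_of_mem (by simpa using hy)]
            have e2 : kf ρ a v ε x y * w (x - ε • y) - k0 ρ a v x y * w x =
                (((a x - a (x - ε • y)) / ε - fderiv ℝ a x y) * fderiv ℝ ρ y v) * w (x - ε • y) +
                  k0 ρ a v x y * (w (x - ε • y) - w x) := by
              unfold kf k0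
              ring
            rw [e2]
            refine (norm_add_le _ _).trans ?_
            rw [norm_mul, norm_mul, norm_mul]
            simp only [Real.norm_eq_abs]
            have q1 := hq ε hε hε1 x hx y hy
            have q2 := hr1 y
            have q3 := hwW (x - ε • y)
            have q4 := hk0 x hx y
            have q5 : |w (x - ε • y) - w x| ≤ κ1 := by
              have := hu x hx (x - ε • y) (by
                rw [sub_sub_cancel_left, norm_neg, norm_smul, Real.norm_of_nonneg hε.le]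
                nlinarith [norm_nonneg y])
              rwa [Real.norm_eq_abs] at this
            rw [hQ]
            gcongr
    _ = Q * b := by
        rw [integral_indicator hBm, setIntegral_const, smul_eq_mul, mul_comm]
    _ ≤ κ := by
        have e3 : Q * b ≤ κ1 * ((b + 1) * (R1 * W + M + 1)) := by
          rw [hQ]
          have : 0 ≤ κ1 * (b + (R1 * W + M) + 1) := by positivity
          nlinarith
        refine e3.trans (le_of_eq ?_)
        rw [hκ1]
        field_simp

end

theorem hFrc (hMos : StMos) (hSch : StSch) (hDen : StDen) : StFrc := by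
  intro n ρ hρ a ha u hu v K hK
  rcases K.eq_empty_or_nonempty with hKe | hKn
  · subst hKe
    simp
  obtain ⟨x0, hx0⟩ := hKn
  have hc := mol_compact hρ
  obtain ⟨R0, hR0⟩ := hc.exists_bound_of_continuous hρ.smooth.continuous
  obtain ⟨R1, hR1⟩ := (fderiv_rho_supp hρ v).exists_bound_of_continuous (fderiv_rho_cont hρ v)
  have hR00 : 0 ≤ R0 := (norm_nonneg _).trans (hR0 0)
  have hR10 : 0 ≤ R1 := (norm_nonneg _).trans (hR1 0)
  have hK1 : IsCompact (Metric.cthickening 1 K) := hK.cthickening
  have hKK1 : K ⊆ Metric.cthickening 1 K := Metric.self_subset_cthickening K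
  obtain ⟨A, hA⟩ := hK1.exists_bound_of_continuousOn
    (ha.continuous_fderiv (by simp)).continuousOn
  have hA0 : 0 ≤ A := (norm_nonneg _).trans (hA x0 (hKK1 hx0))
  set M : ℝ := A * ‖v‖ * R0 + A * R1 with hM
  have hM0 : 0 ≤ M := by positivity
  have hfv : ∀ x ∈ K, |fderiv ℝ a x v| ≤ A * ‖v‖ := by
    intro x hx
    rw [← Real.norm_eq_abs]
    exact ((fderiv ℝ a x).le_opNorm v).trans
      (mul_le_mul_of_nonneg_right (hA x (hKK1 hx)) (norm_nonneg _))
  have hk0 : ∀ x ∈ K, ∀ y, |k0 ρ a v x y| ≤ M := by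
    intro x hx y
    by_cases hy : 1 < ‖y‖
    · rw [k0_supp hρ v x y hy, abs_zero]
      exact hM0
    · push Not at hy
      unfold k0
      refine (abs_add_le _ _).trans ?_
      rw [abs_mul, abs_mul]
      have q1 := hfv x hx
      have q2 := hR0 y
      have q3 := hR1 y
      rw [Real.norm_eq_abs] at q2 q3
      have q4 : |fderiv ℝ a x y| ≤ A := by
        rw [← Real.norm_eq_abs]
        calc ‖fderiv ℝ a x y‖ ≤ ‖fderiv ℝ a x‖ * ‖y‖ := (fderiv ℝ a x).le_opNorm y
          _ ≤ A * 1 := mul_le_mul (hA x (hKK1 hx)) hy (norm_nonneg _) hA0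
          _ = A := mul_one A
      rw [hM]
      gcongr
  have hkf : ∀ ε, 0 < ε → ε ≤ 1 → ∀ x ∈ K, ∀ y, |kf ρ a v ε x y| ≤ M := by
    intro ε hε hε1 x hx y
    by_cases hy : 1 < ‖y‖
    · rw [kf_supp hρ v x y hy, abs_zero]
      exact hM0
    · push Not at hy
      unfold kf
      refine (abs_add_le _ _).trans ?_
      rw [abs_mul, abs_mul]
      have q1 := hfv x hx
      have q2 := hR0 y
      have q3 := hR1 y
      rw [Real.norm_eq_abs] at q2 q3
      have q4 : |(a x - a (x - ε • y)) / ε| ≤ A := by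
        have hmem : x - ε • y ∈ Metric.closedBall x 1 := by
          rw [Metric.mem_closedBall, dist_eq_norm, sub_sub_cancel_left, norm_neg, norm_smul,
            Real.norm_of_nonneg hε.le]
          nlinarith [norm_nonneg y]
        have h1 := (convex_closedBall x 1).norm_image_sub_le_of_norm_fderiv_le (𝕜 := ℝ)
          (f := a) (C := A) (x := x - ε • y) (y := x) (fun z _ => ha.differentiable (by simp) z)
          (fun z hz => hA z (Metric.closedBall_subset_cthickening hx 1 hz)) hmem
          (Metric.mem_closedBall_self zero_le_one)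
        rw [sub_sub_cancel, norm_smul, Real.norm_of_nonneg hε.le, Real.norm_eq_abs] at h1
        rw [abs_div, abs_of_pos hε, div_le_iff₀ hε]
        refine h1.trans ?_
        nlinarith [norm_nonneg y, mul_nonneg hA0 hε.le]
      rw [hM]
      gcongr
  set b : ℝ := volume.real (Metric.closedBall (0 : E n) 1) with hb
  set C : ℝ := M ^ 2 * b ^ 2 with hC
  have hC0 : 0 ≤ C := by positivity
  set V : ℝ := volume.real K with hV
  have hV0 : 0 ≤ V := measureReal_nonneg
  rw [Metric.tendsto_nhds]
  intro η hη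
  set η' : ℝ := η / (12 * (C + 1)) with hη'
  have hη'0 : 0 < η' := by positivity
  obtain ⟨w, hwcont, hwc, hwL, hwint⟩ := hDen n u hu _ hK1 η' hη'0
  obtain ⟨W, hW⟩ := hwc.exists_bound_of_continuous hwcont
  have hW0 : 0 ≤ W := (norm_nonneg _).trans (hW 0)
  set κ : ℝ := √(η / (12 * (V + 1))) with hκ
  have hκ0 : 0 < κ := Real.sqrt_pos.mpr (by positivity)
  have hκ2 : κ ^ 2 = η / (12 * (V + 1)) := Real.sq_sqrt (by positivity)
  obtain ⟨δ, hδ, hδ1, hnear⟩ := kf_near hρ ha v hK hM0 hR10 hW0 hk0
    (fun y => by have := hR1 y; rwa [Real.norm_eq_abs] at this) hwcont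
    (fun y => by have := hW y; rwa [Real.norm_eq_abs] at this) hκ0
  filter_upwards [Ioc_mem_nhdsGT hδ] with ε hε
  obtain ⟨hε0, hεδ⟩ := hε
  have hε1 : ε ≤ 1 := hεδ.trans hδ1
  have hloc := locInt_of_L2l hu
  -- the commutator as an integral operator
  have hkc : ∀ x, Continuous (fun y => kf ρ a v ε x y) := fun x =>
    (kf_cont hρ ha v (ε := ε)).comp (continuous_const.prodMk continuous_id)
  have hks : ∀ x, HasCompactSupport (fun y => kf ρ a v ε x y) := fun x =>
    HasCompactSupport.intro (isCompact_closedBall (0 : E n) 1) fun y hy =>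
      kf_supp hρ v x y (by simpa using hy)
  have hT : ∀ x, fderiv ℝ (fun z => a z * mo ρ ε u z) x v -
      ∫ y, (fderiv ℝ ρ y v) * (a (x - ε • y) * u (x - ε • y)) / ε =
      ∫ y, kf ρ a v ε x y * u (x - ε • y) := by
    intro x
    obtain ⟨hm1, hm2⟩ := hMos n ρ hρ u hu ε hε0
    have hda : DifferentiableAt ℝ a x := ha.differentiable (by simp) x
    have hdm : DifferentiableAt ℝ (mo ρ ε u) x := hm1.differentiable (by simp) x
    have e1 : fderiv ℝ (fun z => a z * mo ρ ε u z) x v =
        a x * fderiv ℝ (mo ρ ε u) x v + mo ρ ε u x * fderiv ℝ a x v := by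
      rw [fderiv_fun_mul hda hdm]
      rfl
    rw [e1, hm2 x v, mo]
    have j1 : Integrable (fun y => fderiv ℝ ρ y v * u (x - ε • y)) :=
      int_mo (fderiv_rho_cont hρ v) (fderiv_rho_supp hρ v) hloc hε0 x
    have j1' : Integrable (fun y => fderiv ℝ ρ y v * u (x - ε • y) / ε) := j1.div_const ε
    have j2 : Integrable (fun y => ρ y * u (x - ε • y)) :=
      int_mo hρ.smooth.continuous hc hloc hε0 x
    have j3 : Integrable (fun y => fderiv ℝ ρ y v * a (x - ε • y) * u (x - ε • y)) := by
      have hcont : Continuous (fun y : E n => fderiv ℝ ρ y v * a (x - ε • y)) :=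
        (fderiv_rho_cont hρ v).mul (ha.continuous.comp
          (continuous_const.sub (continuous_const_smul ε)))
      exact int_mo hcont (fderiv_rho_supp hρ v).mul_right hloc hε0 x
    have j3' : Integrable (fun y => (fderiv ℝ ρ y v) * (a (x - ε • y) * u (x - ε • y)) / ε) := by
      refine (j3.div_const ε).congr (Eventually.of_forall fun y => ?_)
      simp only
      ring
    have j4 : Integrable (fun y => a x * (fderiv ℝ ρ y v * u (x - ε • y) / ε) +
        ρ y * u (x - ε • y) * fderiv ℝ a x v) := (j1'.const_mul _).add (j2.mul_const _)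
    rw [← integral_const_mul, ← integral_mul_const, ← integral_add (j1'.const_mul _)
      (j2.mul_const _), ← integral_sub j4 j3']
    refine integral_congr_ae (Eventually.of_forall fun y => ?_)
    simp only
    unfold kf
    field_simp
    ring
  have hnn : 0 ≤ ∫ x in K, (fderiv ℝ (fun z => a z * mo ρ ε u z) x v -
      ∫ y, (fderiv ℝ ρ y v) * (a (x - ε • y) * u (x - ε • y)) / ε) ^ 2 :=
    integral_nonneg fun x => sq_nonneg _
  rw [dist_zero_right, Real.norm_of_nonneg hnn]
  simp_rw [hT]
  obtain ⟨hs1, hs2⟩ := hSch n (fun x => u x - w x) hwL K hK (kf ρ a v ε) M ε hε0 hε1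
    (kf_cont hρ ha v) (hkf ε hε0 hε1) (fun x y hy => kf_supp hρ v x y hy)
  obtain ⟨hr1, -⟩ := hSch n w (L2l_of_continuous hwcont) K hK (kf ρ a v ε) M ε hε0 hε1
    (kf_cont hρ ha v) (hkf ε hε0 hε1) (fun x y hy => kf_supp hρ v x y hy)
  have hsplit : ∀ x, ∫ y, kf ρ a v ε x y * u (x - ε • y) =
      (∫ y, kf ρ a v ε x y * (u (x - ε • y) - w (x - ε • y))) +
        ∫ y, kf ρ a v ε x y * w (x - ε • y) := by
    intro x
    have i1 := int_mo (hkc x) (hks x) (locInt_of_L2l hwL) hε0 x
    have i2 := int_mo (hkc x) (hks x) hwcont.locallyIntegrable hε0 x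
    rw [← integral_add i1 i2]
    refine integral_congr_ae (Eventually.of_forall fun y => ?_)
    simp only
    ring
  have hbound : ∫ x in K, (∫ y, kf ρ a v ε x y * u (x - ε • y)) ^ 2 ≤
      ∫ x in K, 2 * ((∫ y, kf ρ a v ε x y * (u (x - ε • y) - w (x - ε • y))) ^ 2 +
        (∫ y, kf ρ a v ε x y * w (x - ε • y)) ^ 2) := by
    refine integral_mono_of_nonneg (Eventually.of_forall fun x => sq_nonneg _)
      ((hs1.add hr1).const_mul 2) (Eventually.of_forall fun x => ?_)
    simp only
    rw [hsplit x]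
    set p := ∫ y, kf ρ a v ε x y * (u (x - ε • y) - w (x - ε • y))
    set q := ∫ y, kf ρ a v ε x y * w (x - ε • y)
    nlinarith [sq_nonneg (p - q)]
  refine hbound.trans_lt ?_
  rw [integral_const_mul, integral_add hs1 hr1]
  have b1 : ∫ x in K, (∫ y, kf ρ a v ε x y * (u (x - ε • y) - w (x - ε • y))) ^ 2 ≤ C * η' :=
    hs2.trans (mul_le_mul_of_nonneg_left hwint hC0)
  have b2 : ∫ x in K, (∫ y, kf ρ a v ε x y * w (x - ε • y)) ^ 2 ≤ κ ^ 2 * V := by
    calc ∫ x in K, (∫ y, kf ρ a v ε x y * w (x - ε • y)) ^ 2 ≤ ∫ _x in K, κ ^ 2 := by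
          refine setIntegral_mono_on hr1 (integrableOn_const hK.measure_lt_top.ne)
            hK.measurableSet fun x hx => ?_
          have := hnear ε hε0 hεδ x hx
          rw [← sq_abs]
          exact pow_le_pow_left₀ (abs_nonneg _) this 2
      _ = κ ^ 2 * V := by
          rw [setIntegral_const, smul_eq_mul, mul_comm]
  have c1 : (C + 1) * η' = η / 12 := by
    rw [hη']
    field_simp
  have c2 : κ ^ 2 * V ≤ η / 12 := by
    rw [hκ2, div_mul_eq_mul_div, div_le_div_iff₀ (by positivity) (by norm_num)]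
    nlinarith
  nlinarith

end Pool.Agent.Helper17.LH
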