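import Pool.Agent.Helper17.LH.M_MOS
import Pool.Agent.Helper17.LH.M_DEN

/-!
# Project LH, module MOC: convergence of the mollification
-/

set_option autoImplicit false

open Set Filter Topology MeasureTheory
open scoped ContDiff ENNReal

noncomputable section

namespace Pool.Agent.Helper17.LH

open Helper62.LH

/-- uniform continuity near a compact set -/
lemma unif_near {n : ℕ} {G : Type} [NormedAddCommGroup G] {F : E n → G} (hF : Continuous F)
    {K : Set (E n)} (hK : IsCompact K) {κ : ℝ} (hκ : 0 < κ) :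
    ∃ δ > 0, δ ≤ 1 ∧ ∀ x ∈ K, ∀ z, ‖z - x‖ ≤ δ → ‖F z - F x‖ ≤ κ := by
  have h1 := hK.uniformContinuousAt_of_continuousAt F (fun x _ => hF.continuousAt)
    (Metric.dist_mem_uniformity hκ)
  obtain ⟨δ, hδ, h2⟩ := Metric.mem_uniformity_dist.mp h1
  refine ⟨min (δ / 2) 1, by positivity, min_le_right _ _, fun x hx z hz => ?_⟩
  have h3 : dist x z < δ := by
    rw [dist_comm, dist_eq_norm]
    have := hz.trans (min_le_left (δ / 2) 1)
    linarith
  have h4 := h2 h3 hx
  simp only at h4
  rw [← dist_eq_norm, dist_comm]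
  exact le_of_lt h4

/-- the mollification of a continuous function converges locally uniformly -/
lemma mo_near {n : ℕ} {ρ : E n → ℝ} (hρ : Mol ρ) {v : E n → ℝ} (hv : Continuous v)
    {K : Set (E n)} (hK : IsCompact K) {κ : ℝ} (hκ : 0 < κ) :
    ∃ δ > 0, δ ≤ 1 ∧ ∀ ε, 0 < ε → ε ≤ δ → ∀ x ∈ K, |mo ρ ε v x - v x| ≤ κ := by
  obtain ⟨δ, hδ, hδ1, h⟩ := unif_near hv hK hκ
  refine ⟨δ, hδ, hδ1, fun ε hε hεδ x hx => ?_⟩
  have hloc : LocallyIntegrable v volume := hv.locallyIntegrable
  have hi1 := int_mo hρ.smooth.continuous (mol_compact hρ) hloc hε x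
  have hρi : Integrable ρ := hρ.smooth.continuous.integrable_of_hasCompactSupport (mol_compact hρ)
  have e1 : mo ρ ε v x - v x = ∫ y, ρ y * (v (x - ε • y) - v x) := by
    have e2 : v x = ∫ y, ρ y * v x := by rw [integral_mul_const, hρ.int, one_mul]
    conv_lhs => rw [e2]
    rw [mo, ← integral_sub hi1 (hρi.mul_const _)]
    refine integral_congr_ae (Eventually.of_forall fun y => ?_)
    simp only
    ring
  rw [e1, ← Real.norm_eq_abs]
  calc ‖∫ y, ρ y * (v (x - ε • y) - v x)‖ ≤ ∫ y, ρ y * κ := by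
        refine norm_integral_le_of_norm_le (hρi.mul_const κ) (Eventually.of_forall fun y => ?_)
        rw [norm_mul, Real.norm_of_nonneg (hρ.nonneg y)]
        by_cases hy : 1 < ‖y‖
        · rw [hρ.supp y hy, zero_mul, zero_mul]
        · push Not at hy
          refine mul_le_mul_of_nonneg_left ?_ (hρ.nonneg y)
          apply h x hx
          rw [sub_sub_cancel_left, norm_neg, norm_smul, Real.norm_of_nonneg hε.le]
          nlinarith [norm_nonneg y]
    _ = κ := by rw [integral_mul_const, hρ.int, one_mul]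

theorem hMoc (hMos : StMos) (hSch : StSch) (hDen : StDen) : StMoc := by
  intro n ρ hρ u hu K hK
  obtain ⟨M, hM⟩ := (mol_compact hρ).exists_bound_of_continuous hρ.smooth.continuous
  set b : ℝ := volume.real (Metric.closedBall (0 : E n) 1) with hb
  set C : ℝ := M ^ 2 * b ^ 2 with hC
  have hC0 : 0 ≤ C := by positivity
  set V : ℝ := volume.real K with hV
  have hV0 : 0 ≤ V := measureReal_nonneg
  have hK1 : IsCompact (Metric.cthickening 1 K) := hK.cthickening
  have hKK1 : K ⊆ Metric.cthickening 1 K := Metric.self_subset_cthickening K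
  rw [Metric.tendsto_nhds]
  intro η hη
  set η' : ℝ := η / (12 * (C + 1)) with hη'
  have hη'0 : 0 < η' := by positivity
  obtain ⟨v, hvcont, hvc, hvL, hvint⟩ := hDen n u hu _ hK1 η' hη'0
  set κ : ℝ := √(η / (12 * (V + 1))) with hκ
  have hκ0 : 0 < κ := Real.sqrt_pos.mpr (by positivity)
  have hκ2 : κ ^ 2 = η / (12 * (V + 1)) := Real.sq_sqrt (by positivity)
  obtain ⟨δ, hδ, hδ1, hnear⟩ := mo_near hρ hvcont hK hκ0
  filter_upwards [Ioc_mem_nhdsGT hδ] with ε hε
  obtain ⟨hε0, hεδ⟩ := hε
  have hε1 : ε ≤ 1 := hεδ.trans hδ1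
  have hvl := L2l_of_continuous hvcont
  have hnn : 0 ≤ ∫ x in K, (mo ρ ε u x - u x) ^ 2 := integral_nonneg fun x => sq_nonneg _
  rw [dist_zero_right, Real.norm_of_nonneg hnn]
  -- the three pieces
  obtain ⟨hs1, hs2⟩ := hSch n (fun x => u x - v x) hvL K hK (fun _ y => ρ y) M ε hε0 hε1
    (hρ.smooth.continuous.comp continuous_snd) (fun x _ y => by
      have := hM y
      rwa [Real.norm_eq_abs] at this) (fun _ y hy => hρ.supp y hy)
  have hsplit : ∀ x, mo ρ ε u x = (∫ y, ρ y * (u (x - ε • y) - v (x - ε • y))) + mo ρ ε v x := by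
    intro x
    have i1 := int_mo hρ.smooth.continuous (mol_compact hρ) (locInt_of_L2l hvL) hε0 x
    have i2 := int_mo hρ.smooth.continuous (mol_compact hρ) (locInt_of_L2l hvl) hε0 x
    rw [mo, mo, ← integral_add i1 i2]
    refine integral_congr_ae (Eventually.of_forall fun y => ?_)
    simp only
    ring
  have hmov : Continuous (mo ρ ε v) := (hMos n ρ hρ v hvl ε hε0).1.continuous
  have i1 : IntegrableOn (fun x => (∫ y, ρ y * (u (x - ε • y) - v (x - ε • y))) ^ 2) K := hs1
  have i2 : IntegrableOn (fun x => (mo ρ ε v x - v x) ^ 2) K :=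
    ((hmov.sub hvcont).pow 2).continuousOn.integrableOn_compact hK
  have i3 : IntegrableOn (fun x => (u x - v x) ^ 2) K := hvL.2 K hK
  have i23 : IntegrableOn (fun x => (mo ρ ε v x - v x) ^ 2 + (u x - v x) ^ 2) K := i2.add i3
  have hbound : ∫ x in K, (mo ρ ε u x - u x) ^ 2 ≤
      ∫ x in K, 3 * ((∫ y, ρ y * (u (x - ε • y) - v (x - ε • y))) ^ 2 +
        ((mo ρ ε v x - v x) ^ 2 + (u x - v x) ^ 2)) := by
    refine integral_mono_of_nonneg (Eventually.of_forall fun x => sq_nonneg _)
      ((i1.add i23).const_mul 3) (Eventually.of_forall fun x => ?_)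
    simp only
    rw [hsplit x]
    set p := ∫ y, ρ y * (u (x - ε • y) - v (x - ε • y))
    nlinarith [sq_nonneg (p - (mo ρ ε v x - v x)), sq_nonneg (p + (u x - v x)),
      sq_nonneg ((mo ρ ε v x - v x) + (u x - v x))]
  refine hbound.trans_lt ?_
  rw [integral_const_mul, integral_add i1 i23, integral_add i2 i3]
  have b1 : ∫ x in K, (∫ y, ρ y * (u (x - ε • y) - v (x - ε • y))) ^ 2 ≤ C * η' :=
    hs2.trans (mul_le_mul_of_nonneg_left hvint hC0)
  have b2 : ∫ x in K, (mo ρ ε v x - v x) ^ 2 ≤ κ ^ 2 * V := by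
    calc ∫ x in K, (mo ρ ε v x - v x) ^ 2 ≤ ∫ _x in K, κ ^ 2 := by
          refine setIntegral_mono_on i2 (integrableOn_const hK.measure_lt_top.ne)
            hK.measurableSet fun x hx => ?_
          have := hnear ε hε0 hεδ x hx
          rw [← sq_abs]
          exact pow_le_pow_left₀ (abs_nonneg _) this 2
      _ = κ ^ 2 * V := by
          rw [setIntegral_const, smul_eq_mul, mul_comm]
  have b3 : ∫ x in K, (u x - v x) ^ 2 ≤ η' := by
    refine (setIntegral_mono_set (hvL.2 _ hK1) (Eventually.of_forall fun x => sq_nonneg _)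
      (Eventually.of_forall hKK1)).trans hvint
  have c1 : (C + 1) * η' = η / 12 := by
    rw [hη']
    field_simp
  have c2 : κ ^ 2 * V ≤ η / 12 := by
    rw [hκ2, div_mul_eq_mul_div, div_le_div_iff₀ (by positivity) (by norm_num)]
    nlinarith
  nlinarith

end Pool.Agent.Helper17.LH
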