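import Pool.Agent.Helper62.LH.StA

/-!
# Project LH, module MOS: smoothness of the mollification
-/

set_option autoImplicit false

open Set Filter Topology MeasureTheory
open scoped ContDiff ENNReal Convolution

noncomputable section

namespace Pool.Agent.Helper17.LH

open Helper62.LH

lemma locInt_of_L2l {n : ℕ} {u : E n → ℝ} (hu : L2l u) : LocallyIntegrable u volume := by
  rw [locallyIntegrable_iff]
  intro K hK
  have h1 : IntegrableOn (fun x => 1 + u x ^ 2) K :=
    (integrableOn_const hK.measure_lt_top.ne).add (hu.2 K hK)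
  refine Integrable.mono' h1 hu.1.restrict (Eventually.of_forall fun x => ?_)
  rw [Real.norm_eq_abs]
  nlinarith [sq_nonneg (|u x| - 1), sq_abs (u x), abs_nonneg (u x)]

lemma mol_compact {n : ℕ} {ρ : E n → ℝ} (hρ : Mol ρ) : HasCompactSupport ρ :=
  HasCompactSupport.intro (isCompact_closedBall (0 : E n) 1) fun x hx => hρ.supp x (by
    simpa using hx)

lemma mo_eq {n : ℕ} (f u : E n → ℝ) {ε : ℝ} (hε : 0 < ε) (x : E n) :
    ∫ y, f y * u (x - ε • y) =
      |(ε ^ Module.finrank ℝ (E n))⁻¹| * ∫ z, f (ε⁻¹ • z) * u (x - z) := by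
  have h := Measure.integral_comp_smul (volume : Measure (E n))
    (fun z : E n => f (ε⁻¹ • z) * u (x - z)) ε
  rw [smul_eq_mul] at h
  rw [← h]
  congr 1
  funext y
  rw [smul_smul, inv_mul_cancel₀ hε.ne', one_smul]

lemma int_mo {n : ℕ} {f u : E n → ℝ} (hf : Continuous f) (hfc : HasCompactSupport f)
    (hu : LocallyIntegrable u volume) {ε : ℝ} (hε : 0 < ε) (x : E n) :
    Integrable (fun y => f y * u (x - ε • y)) volume := by
  have hRc : HasCompactSupport (fun z : E n => f (ε⁻¹ • z)) :=
    hfc.comp_smul (inv_ne_zero hε.ne')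
  have hRcont : Continuous (fun z : E n => f (ε⁻¹ • z)) := hf.comp (continuous_const_smul ε⁻¹)
  have h1 := hRc.convolutionExists_left (ContinuousLinearMap.mul ℝ ℝ) hRcont hu x
  have h2 : Integrable (fun z : E n => f (ε⁻¹ • z) * u (x - z)) volume := h1
  have h3 := (integrable_comp_smul_iff (volume : Measure (E n))
    (fun z : E n => f (ε⁻¹ • z) * u (x - z)) hε.ne').mpr h2
  refine h3.congr (Eventually.of_forall fun y => ?_)
  simp only
  rw [smul_smul, inv_mul_cancel₀ hε.ne', one_smul]

theorem hMos : StMos := by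
  intro n ρ hρ u hu ε hε
  have hloc := locInt_of_L2l hu
  set R : E n → ℝ := fun z => ρ (ε⁻¹ • z) with hR
  have hRsm : ContDiff ℝ ∞ R := hρ.smooth.comp (contDiff_const_smul ε⁻¹)
  have hRc : HasCompactSupport R :=
    (mol_compact hρ).comp_smul (inv_ne_zero hε.ne')
  set c : ℝ := |(ε ^ Module.finrank ℝ (E n))⁻¹| with hc
  set L : ℝ →L[ℝ] ℝ →L[ℝ] ℝ := ContinuousLinearMap.mul ℝ ℝ with hL
  have hmo : mo ρ ε u = fun x => c • (R ⋆[L, volume] u) x := by
    funext x
    rw [mo, mo_eq ρ u hε x, smul_eq_mul]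
    rfl
  have hcv : ContDiff ℝ ∞ (R ⋆[L, volume] u) := hRc.contDiff_convolution_left L hRsm hloc
  have hR1 : ContDiff ℝ 1 R := hRsm.of_le (by exact_mod_cast le_top)
  refine ⟨?_, ?_⟩
  · rw [hmo]
    exact hcv.const_smul c
  · intro x v
    have hd := hRc.hasFDerivAt_convolution_left L hR1 hloc x
    have hfR : ∀ z, fderiv ℝ R z = ε⁻¹ • fderiv ℝ ρ (ε⁻¹ • z) := by
      intro z
      rw [hR]
      exact fderiv_comp_smul ε⁻¹
    have hex : ConvolutionExists (fderiv ℝ R) u (L.precompL (E n)) volume :=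
      (hRc.fderiv ℝ).convolutionExists_left (L.precompL (E n)) (hR1.continuous_fderiv one_ne_zero)
        hloc
    rw [hmo, fderiv_fun_const_smul hd.differentiableAt, hd.fderiv]
    have e1 : ((fderiv ℝ R ⋆[L.precompL (E n), volume] u) x) v =
        ∫ z, ε⁻¹ * (fderiv ℝ ρ (ε⁻¹ • z) v) * u (x - z) := by
      rw [convolution_def, ContinuousLinearMap.integral_apply (hex x)]
      refine integral_congr_ae (Eventually.of_forall fun z => ?_)
      simp only
      rw [ContinuousLinearMap.precompL_apply, hfR]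
      rfl
    rw [smul_apply, e1, smul_eq_mul]
    have e2 := mo_eq (fun y => fderiv ℝ ρ y v / ε) u hε x
    have e3 : ∫ y, fderiv ℝ ρ y v * u (x - ε • y) / ε =
        ∫ y, fderiv ℝ ρ y v / ε * u (x - ε • y) := by
      refine integral_congr_ae (Eventually.of_forall fun y => ?_)
      simp only
      ring
    rw [e3, e2]
    congr 1
    refine integral_congr_ae (Eventually.of_forall fun z => ?_)
    simp only
    rw [div_eq_inv_mul]

end Pool.Agent.Helper17.LH
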